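import Pool.Agent.Helper15.RA.GoalsK

/-!
# Project RA, packet RA-V1
-/

set_option autoImplicit false

open LaurentPolynomial

noncomputable section

namespace Pool.Agent.Helper35.RA

open Pool.Agent.Helper15.RA

section

variable {I V W H : Type} [Group W] [Ring H] [Algebra ℤ[T;T⁻¹] H] {M : CoxeterMatrix I}
  {cs : CoxeterSystem M W}

/-- The elements with `T`-support in `R`. -/
def SupR (t : Module.Basis W ℤ[T;T⁻¹] H) (R : Set W) : Submodule ℤ[T;T⁻¹] H where
  carrier := {Z | ∀ k, t.repr Z k ≠ 0 → k ∈ R}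
  add_mem' := by
    intro a b ha hb k hk
    rw [map_add, Finsupp.add_apply] at hk
    by_cases h1 : t.repr a k = 0
    · exact hb k fun h2 => hk (by rw [h1, h2, add_zero])
    · exact ha k h1
  zero_mem' := by
    intro k hk
    exact absurd (by simp) hk
  smul_mem' := by
    intro c x hx k hk
    rw [map_smul, Finsupp.smul_apply, smul_eq_mul] at hk
    exact hx k (right_ne_zero_of_mul hk)

theorem mem_SupR (t : Module.Basis W ℤ[T;T⁻¹] H) (R : Set W) (Z : H) :
    Z ∈ SupR t R ↔ ∀ k, t.repr Z k ≠ 0 → k ∈ R := Iff.rfl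

theorem t_mem (t : Module.Basis W ℤ[T;T⁻¹] H) (R : Set W) {g : W} (hg : g ∈ R) :
    t g ∈ SupR t R := by
  intro k hk
  rw [Module.Basis.repr_self] at hk
  by_cases h : g = k
  · rwa [← h]
  · rw [Finsupp.single_eq_of_ne (Ne.symm h)] at hk
    exact absurd rfl hk

theorem eq_sum (t : Module.Basis W ℤ[T;T⁻¹] H) (Z : H) :
    Z = (t.repr Z).sum fun z p => p • t z := by
  conv_lhs => rw [← t.linearCombination_repr Z, Finsupp.linearCombination_apply]

/-- A linear map which sends the `T_g`, `g ∈ R`, to `S` sends `SupR` to `S`. -/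
theorem map_mem (t : Module.Basis W ℤ[T;T⁻¹] H) (R : Set W) (S : Submodule ℤ[T;T⁻¹] H)
    (f : H →ₗ[ℤ[T;T⁻¹]] H) (hf : ∀ g ∈ R, f (t g) ∈ S) {Z : H} (hZ : Z ∈ SupR t R) : f Z ∈ S := by
  rw [eq_sum t Z, Finsupp.sum, map_sum]
  refine Submodule.sum_mem _ fun z hz => ?_
  rw [map_smul]
  exact Submodule.smul_mem _ _ (hf z (hZ z (Finsupp.mem_support_iff.1 hz)))

/-- The coefficient at an element of maximal length outside of `R`. -/
theorem top_coeff (t : Module.Basis W ℤ[T;T⁻¹] H) (R : Set W) (f : W → H)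
    (hR : ∀ y ∈ R, f y ∈ SupR t R) (h1 : ∀ y, t.repr (f y) y = 1)
    (h2 : ∀ y z, t.repr (f y) z ≠ 0 → z = y ∨ cs.length z < cs.length y)
    (q : W →₀ ℤ[T;T⁻¹]) (hq : ∃ y, y ∉ R ∧ q y ≠ 0) :
    ∃ y₀, y₀ ∉ R ∧ q y₀ ≠ 0 ∧ t.repr (q.sum fun y p => p • f y) y₀ = q y₀ := by
  classical
  let s := q.support.filter fun y => y ∉ R
  have hs : s.Nonempty := by
    obtain ⟨y, hy1, hy2⟩ := hq
    exact ⟨y, Finset.mem_filter.2 ⟨Finsupp.mem_support_iff.2 hy2, hy1⟩⟩
  obtain ⟨y₀, hy₀, hmax⟩ := s.exists_max_image cs.length hs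
  obtain ⟨hy1, hy2⟩ := Finset.mem_filter.1 hy₀
  refine ⟨y₀, hy2, Finsupp.mem_support_iff.1 hy1, ?_⟩
  rw [Finsupp.sum, map_sum, Finsupp.finsetSum_apply, Finset.sum_eq_single y₀]
  · rw [map_smul, Finsupp.smul_apply, h1, smul_eq_mul, mul_one]
  · intro y hy hne
    rw [map_smul, Finsupp.smul_apply, smul_eq_mul]
    have : t.repr (f y) y₀ = 0 := by
      by_contra h
      by_cases hyR : y ∈ R
      · exact hy2 (hR y hyR y₀ h)
      · rcases h2 y y₀ h with h3 | h3
        · exact hne h3.symm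
        · exact absurd (hmax y (Finset.mem_filter.2 ⟨hy, hyR⟩)) (not_le.2 h3)
    rw [this, mul_zero]
  · intro h
    exact absurd hy1 h

/-- Induction in a block. -/
theorem block_ind (hNI : N_I) (π : I → V) (Γ : SimpleGraph V) (hΓ : IsGraphProd M π Γ) (v : V)
    (P : W → Prop) (h1 : P 1)
    (hs : ∀ i, π i = v → ∀ w ∈ (iota cs π v).range, cs.simple i ∈ (iota cs π v).range →
      cs.length (cs.simple i * w) = cs.length w + 1 → P w → P (cs.simple i * w)) :
    ∀ w ∈ (iota cs π v).range, P w := by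
  obtain ⟨hlen, -, -⟩ := hNI I V W M cs π Γ hΓ v
  have hi : ∀ i : {i // π i = v}, iota cs π v ((sub M π v).toCoxeterSystem.simple i) =
      cs.simple i.1 := by
    intro i
    unfold iota
    exact CoxeterSystem.lift_apply_simple _ _ _
  have key : ∀ (n : ℕ) (a : (sub M π v).Group), (sub M π v).toCoxeterSystem.length a = n →
      P (iota cs π v a) := by
    intro n
    induction n with
    | zero =>
      intro a ha
      rw [CoxeterSystem.length_eq_zero_iff] at ha
      rw [ha, map_one]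
      exact h1
    | succ n ih =>
      intro a ha
      have hne : a ≠ 1 := by
        intro h
        rw [h, CoxeterSystem.length_one] at ha
        omega
      obtain ⟨i, hi2⟩ := (sub M π v).toCoxeterSystem.exists_leftDescent_of_ne_one hne
      rw [CoxeterSystem.isLeftDescent_iff] at hi2
      have h3 := ih ((sub M π v).toCoxeterSystem.simple i * a) (by omega)
      have h4 : iota cs π v a = cs.simple i.1 *
          iota cs π v ((sub M π v).toCoxeterSystem.simple i * a) := by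
        rw [map_mul, hi, ← mul_assoc, cs.simple_mul_simple_self, one_mul]
      have h5 := hs i.1 i.2 _ ⟨(sub M π v).toCoxeterSystem.simple i * a, rfl⟩ ⟨_, hi i⟩
        (by rw [← h4, hlen, hlen]; omega) h3
      rwa [← h4] at h5
  rintro w ⟨a, rfl⟩
  exact key _ a rfl

end

theorem h_v1 (hH1 : H_1) (hH2 : H_2) (hNI : N_I) : V_1 := by
  intro I V W H _ _ _ M cs L hL π Γ hΓ D h hh v
  obtain ⟨ht1, hup, hdown, -, -, -, -, -⟩ := hH1 I W H M cs L D.toHecke0
  obtain ⟨hsemi, hb1, hb2, hc1, hc2, hc3, -, -, hcs, -⟩ := hH2 I W H M cs L hL D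
  set R : Set W := ((iota cs π v).range : Set W) with hRdef
  have hR1 : (1 : W) ∈ R := (iota cs π v).range.one_mem
  -- multiplication by simple reflections
  have hsm : ∀ i, cs.simple i ∈ (iota cs π v).range → ∀ Z ∈ SupR D.t R,
      D.t (cs.simple i) * Z ∈ SupR D.t R := by
    intro i hi Z hZ
    refine map_mem D.t R _ (LinearMap.mulLeft _ (D.t (cs.simple i))) (fun g hg => ?_) hZ
    rw [LinearMap.mulLeft_apply]
    have hgi : cs.simple i * g ∈ R := (iota cs π v).range.mul_mem hi hg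
    rcases cs.length_simple_mul g i with h1 | h1
    · rw [hup i g h1]
      exact t_mem D.t R hgi
    · rw [hdown i g h1]
      exact Submodule.add_mem _ (Submodule.smul_mem _ _ (t_mem D.t R hg)) (t_mem D.t R hgi)
  -- multiplication
  have hmul : ∀ g ∈ (iota cs π v).range, ∀ Z ∈ SupR D.t R, D.t g * Z ∈ SupR D.t R := by
    refine block_ind hNI π Γ hΓ v _ ?_ ?_
    · intro Z hZ
      rw [ht1, one_mul]
      exact hZ
    · intro i _ w _ hi hl ih Z hZ
      rw [← hup i w hl, mul_assoc]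
      exact hsm i hi _ (ih Z hZ)
  have hmul2 : ∀ Y ∈ SupR D.t R, ∀ Z ∈ SupR D.t R, Y * Z ∈ SupR D.t R := by
    intro Y hY Z hZ
    exact map_mem D.t R _ (LinearMap.mulRight _ Z) (fun g hg => hmul g hg Z hZ) hY
  -- bar
  have hbs : ∀ i, D.bar (D.t (cs.simple i)) = D.t (cs.simple i) +
      ((T (-(L (cs.simple i) : ℤ)) : ℤ[T;T⁻¹]) - T (L (cs.simple i) : ℤ)) • 1 := by
    intro i
    have h1 := D.bar_c (cs.simple i)
    rw [hcs i, map_add, hsemi, map_one, invert_T, neg_neg] at h1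
    rw [sub_smul, ← add_sub_assoc, ← h1, add_sub_cancel_right]
  have hbar : ∀ g ∈ (iota cs π v).range, D.bar (D.t g) ∈ SupR D.t R := by
    refine block_ind hNI π Γ hΓ v _ ?_ ?_
    · rw [ht1, map_one, ← ht1]
      exact t_mem D.t R hR1
    · intro i _ w _ hi hl ih
      rw [← hup i w hl, map_mul, hbs, add_mul, smul_mul_assoc, one_mul]
      exact Submodule.add_mem _ (hsm i hi _ ih) (Submodule.smul_mem _ _ ih)
  -- c
  have hc : ∀ g ∈ (iota cs π v).range, D.c g ∈ SupR D.t R := by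
    intro g hg
    by_contra hne
    rw [mem_SupR] at hne
    push Not at hne
    obtain ⟨k, hk1, hk2⟩ := hne
    set q : W →₀ ℤ[T;T⁻¹] := (D.t.repr (D.c g)).mapRange (invert : ℤ[T;T⁻¹] → ℤ[T;T⁻¹])
      (map_zero _) with hq
    obtain ⟨y₀, hy1, hy2, hy3⟩ := top_coeff (cs := cs) D.t R (fun y => D.bar (D.t y))
      (fun y hy => hbar y hy) hb1 hb2 q ⟨k, hk2, by
        rw [hq, Finsupp.mapRange_apply]
        exact fun h => hk1 (by simpa using h)⟩
    have h1 : (q.sum fun y p => p • D.bar (D.t y)) = D.c g := by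
      rw [hq, Finsupp.sum_mapRange_index (by simp)]
      conv_rhs => rw [← D.bar_c g, eq_sum D.t (D.c g), Finsupp.sum, map_sum]
      rw [Finsupp.sum]
      exact Finset.sum_congr rfl fun z _ => (hsemi _ _).symm
    rw [h1, hq, Finsupp.mapRange_apply] at hy3
    have h2 : y₀ ≠ g := fun h => hy1 (by rw [h]; exact hg)
    have h3 := eq_zero_of_invert (hc3 g y₀ h2) hy3.symm
    apply hy2
    rw [hq, Finsupp.mapRange_apply, h3, map_zero]
  refine ⟨fun g hg g' hg' => hmul g hg _ (t_mem D.t R hg'), hbar, hc, ?_⟩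
  intro g hg g' hg' k hk
  by_contra hkR
  obtain ⟨y₀, hy1, hy2, hy3⟩ := top_coeff (cs := cs) D.t R D.c hc hc1 hc2 (h g g') ⟨k, hkR, hk⟩
  rw [← hh g g'] at hy3
  apply hy1
  apply hmul2 _ (hc g hg) _ (hc g' hg')
  rw [hy3]
  exact hy2

end Pool.Agent.Helper35.RA
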