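import Pool.Agent.Helper15.RA.GoalsK

/-!
# Project RA, packet RA-KA
-/

set_option autoImplicit false

open LaurentPolynomial

noncomputable section

namespace Pool.Agent.Helper35.RA

open Pool.Agent.Helper15.RA

theorem h_ka (hKE : K_E) (hKT : K_T) (hKD : K_D) (hI1 : I_1) (hI2 : I_2) (hE1 : E_1) (hE2 : E_2) :
    K_A := by
  intro I W V H _ _ _ X n hSB M w
  obtain ⟨hE11, -, -, -⟩ := hE1 V W X.Γ X.G X.sl X.gp
  obtain ⟨-, -, -, -, hGm, -, -, hGK, -⟩ := hE2 I W V H X
  obtain ⟨-, -, hCK, -⟩ := hI1 I W V H X
  have key : ∀ (m : ℕ) (w : W), X.cs.length w = m → X.sl w < n + 1 →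
      X.LamT M (X.sl w) 0 (X.D.t w) ∧ (X.Ge (M + 1) w → X.LamT M (X.sl w) (-1) (X.D.t w)) := by
    intro m
    induction m using Nat.strong_induction_on with
    | _ m ih =>
    intro w hm hw
    have h2 : X.Ge (M + 1) w → X.LamT M (X.sl w) (-1) (X.D.t w) := by
      rintro ⟨x, K, y, hK, hwe, hsl, hMK⟩
      have hd : X.sl K.prod = K.length := hE11 K hK
      have hs1 := X.gp.mul (x * K.prod) y
      have hs2 := X.gp.mul x (K.prod * y)
      have hs3 := X.gp.mul x K.prod
      have hs4 := X.gp.mul K.prod y
      rw [← mul_assoc] at hs2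
      rw [← hwe] at hs1 hs2
      have hRed : X.Red x K y := ⟨hK, by omega, by omega⟩
      -- (1)
      have hIdl : X.D.t x * (K.map X.D.c).prod * X.D.t y ∈ X.Idl M := by
        rw [← hCK K hK]
        have h0 : X.C K.prod ∈ X.Idl M :=
          Submodule.subset_span ⟨K.prod, hGm _ _ _ hMK (hGK K hK), rfl⟩
        exact (hI2 I W V H X M _ _ ((hI2 I W V H X M _ _ h0).1)).2
      have hτ := hKT I W V H X x K y hRed
      have h1 : X.LamT M (X.sl w) (-1) (X.D.t x * (K.map X.D.c).prod * X.D.t y) :=
        Ctx.LamT.of_idl hIdl (hτ.mono (by omega))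
      -- (2)
      have hD := hKD I W V H X n hSB M x (K.map fun k => (k, false)) (K.map fun k => (k, true)) y
        (by simp [Function.comp_def]) (by simpa [Function.comp_def] using hRed)
        (by rw [List.length_map]; omega)
      have hmap1 : (K.map fun k => (k, false)).map Prod.fst = K := by simp [Function.comp_def]
      rw [hmap1, List.map_map, List.map_map, List.length_map] at hD
      have hmap2 : K.map (X.e ∘ fun k => (k, false)) = K.map X.D.c := by
        apply List.map_congr_left
        intro k _
        simp [Ctx.e]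
      have hmap3 : K.map (X.e ∘ fun k => (k, true)) = K.map fun k => X.e (k, true) := rfl
      rw [hmap2, hmap3] at hD
      have heps := X.eps_nonneg M x K y
      have h3 : X.LamT M (X.sl w) (-1) (X.D.t x * (K.map X.D.c).prod * X.D.t y -
          X.D.t x * (K.map fun k => X.e (k, true)).prod * X.D.t y) :=
        hD.mono (by omega) (by omega)
      -- (3)
      have hE := hKE I W V H X x K y hK (by rw [← hwe]; exact hsl)
      rw [← hwe] at hE
      set Z := X.D.t x * (K.map fun k => X.e (k, true)).prod * X.D.t y - X.D.t w with hZ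
      have h4 : X.LamT M (X.sl w) (-1) Z := by
        have hsum : Z = ∑ z ∈ (X.D.t.repr Z).support, X.D.t.repr Z z • X.D.t z := by
          conv_lhs => rw [← X.D.t.linearCombination_repr Z, Finsupp.linearCombination_apply,
            Finsupp.sum]
        rw [hsum]
        refine Ctx.LamT.sum fun z hz => ?_
        have hz0 := Finsupp.mem_support_iff.1 hz
        obtain ⟨hz1, hz2⟩ := (hE z).2 hz0
        have h5 := (ih (X.cs.length z) (by omega) z rfl (by omega)).1
        exact h5.smul_le (hE z).1 (by omega) (by omega)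
      have h6 : X.D.t w = (X.D.t x * (K.map X.D.c).prod * X.D.t y -
          (X.D.t x * (K.map X.D.c).prod * X.D.t y -
          X.D.t x * (K.map fun k => X.e (k, true)).prod * X.D.t y)) - Z := by
        rw [hZ]
        abel
      rw [h6]
      exact (h1.sub h3).sub h4
    refine ⟨?_, h2⟩
    by_cases hG : X.Ge (M + 1) w
    · exact (h2 hG).mono le_rfl (by norm_num)
    · apply Ctx.LamT.of_low
      intro w'
      rw [Module.Basis.repr_self]
      by_cases hww : w = w'
      · subst hww
        rw [Finsupp.single_eq_same]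
        exact ⟨DegLE.one le_rfl, fun _ => ⟨hG, le_rfl⟩⟩
      · rw [Finsupp.single_eq_of_ne (Ne.symm hww)]
        exact ⟨DegLE.zero _, fun h => absurd rfl h⟩
  intro hw
  exact key _ w rfl hw

end Pool.Agent.Helper35.RA
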