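import Pool.Agent.Helper15.RA.GoalsR

/-!
# Project RA, packet RA-RW: words in a finite dihedral group
-/

set_option autoImplicit false

open LaurentPolynomial

noncomputable section

namespace Pool.Agent.Helper35.RA

open Pool.Agent.Helper15.RA

section

variable {I W : Type} [Group W] {M : CoxeterMatrix I} (cs : CoxeterSystem M W)

theorem al_succ (i j : I) (k : ℕ) : al cs i j (k + 1) = cs.simple i * al cs j i k := rfl

theorem simple_al (i j : I) (k : ℕ) : cs.simple i * al cs i j (k + 1) = al cs j i k := by
  rw [al_succ, ← mul_assoc, cs.simple_mul_simple_self, one_mul]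

theorem al_length_le (k : ℕ) : ∀ i j : I, cs.length (al cs i j k) ≤ k := by
  induction k with
  | zero => intro i j; simp [al]
  | succ k ih =>
    intro i j
    have h1 := cs.length_mul_le (cs.simple i) (al cs j i k)
    have h2 := ih j i
    rw [cs.length_simple] at h1
    rw [al_succ]
    omega

theorem al_length_mod (k : ℕ) : ∀ i j : I, cs.length (al cs i j k) % 2 = k % 2 := by
  induction k with
  | zero => intro i j; simp [al]
  | succ k ih =>
    intro i j
    rw [al_succ, cs.length_mul_mod_two, cs.length_simple]
    have := ih j i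
    omega

theorem al_succ_right (k : ℕ) : ∀ i j : I,
    al cs i j (k + 1) = al cs i j k * cs.simple (if Even k then i else j) := by
  induction k with
  | zero => intro i j; simp [al]
  | succ k ih =>
    intro i j
    rw [al_succ, ih j i, ← mul_assoc, ← al_succ]
    congr 2
    by_cases h : Even k
    · have : ¬ Even (k + 1) := by rw [Nat.even_add_one]; exact not_not.2 h
      rw [if_pos h, if_neg this]
    · have : Even (k + 1) := by rw [Nat.even_add_one]; exact h
      rw [if_neg h, if_pos this]

theorem al_inv (k : ℕ) : ∀ i j : I,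
    (al cs i j k)⁻¹ = if Even k then al cs j i k else al cs i j k := by
  induction k with
  | zero => intro i j; simp [al]
  | succ k ih =>
    intro i j
    rw [al_succ, mul_inv_rev, cs.inv_simple, ih j i]
    by_cases h : Even k
    · have h1 : ¬ Even (k + 1) := by rw [Nat.even_add_one]; exact not_not.2 h
      rw [if_pos h, if_neg h1, ← al_succ, al_succ_right cs k i j, if_pos h]
    · have h1 : Even (k + 1) := by rw [Nat.even_add_one]; exact h
      rw [if_neg h, if_pos h1, al_succ_right cs k j i, if_neg h]

theorem al_even (l : ℕ) (i j : I) : al cs i j (2 * l) = (cs.simple i * cs.simple j) ^ l := by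
  induction l with
  | zero => simp [al]
  | succ l ih =>
    rw [show 2 * (l + 1) = 2 * l + 1 + 1 by ring, al_succ, al_succ, ih, pow_succ', mul_assoc]

theorem al_longest (i j : I) : al cs i j (M i j) = al cs j i (M i j) := by
  have h0 := cs.simple_mul_simple_pow i j
  rcases Nat.even_or_odd' (M i j) with ⟨l, hl | hl⟩
  · rw [hl] at h0 ⊢
    rw [al_even, al_even]
    have h1 : (cs.simple j * cs.simple i) = (cs.simple i * cs.simple j)⁻¹ := by
      rw [mul_inv_rev, cs.inv_simple, cs.inv_simple]
    rw [h1, inv_pow, eq_inv_iff_mul_eq_one, ← pow_add, ← two_mul]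
    exact h0
  · rw [hl] at h0 ⊢
    rw [al_succ, al_succ, al_even, al_even]
    have h1 : (cs.simple j * cs.simple i) = (cs.simple i * cs.simple j)⁻¹ := by
      rw [mul_inv_rev, cs.inv_simple, cs.inv_simple]
    rw [h1, inv_pow, mul_inv_eq_iff_eq_mul, mul_assoc, ← pow_add]
    have h2 : cs.simple j * (cs.simple j * cs.simple i) =
        cs.simple j * (cs.simple i * cs.simple j) ^ (l + l) := by
      rw [h1]
      congr 1
      rw [inv_eq_iff_mul_eq_one, ← pow_succ', ← two_mul]
      exact h0
    rw [← h2, ← mul_assoc, cs.simple_mul_simple_self, one_mul]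

end

section

variable {I W : Type} [Group W] {M : CoxeterMatrix I} (cs : CoxeterSystem M W) {i j : I}

/-- Every element is an alternating product of length at most `m`. -/
theorem al_exists (hij : ∀ k, k = i ∨ k = j) (hM : M i j ≠ 0) (w : W) :
    ∃ k ≤ M i j, w = al cs i j k ∨ w = al cs j i k := by
  have step : ∀ (i j : I), M i j ≠ 0 → ∀ k ≤ M i j, ∀ w, w = al cs i j k ∨ w = al cs j i k →
      ∃ k' ≤ M i j, cs.simple i * w = al cs i j k' ∨ cs.simple i * w = al cs j i k' := by
    rintro i j hM k hk w (rfl | rfl)
    · cases k with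
      | zero => exact ⟨1, by omega, Or.inl rfl⟩
      | succ k => exact ⟨k, by omega, Or.inr (simple_al cs i j k)⟩
    · rcases Nat.lt_or_ge k (M i j) with h | h
      · exact ⟨k + 1, h, Or.inl rfl⟩
      · have hk' : k = M i j := le_antisymm hk h
        rw [hk', ← al_longest]
        obtain ⟨m, hm⟩ := Nat.exists_eq_succ_of_ne_zero hM
        refine ⟨m, by omega, Or.inr ?_⟩
        rw [hm]
        exact simple_al cs i j m
  induction w using cs.simple_induction_left with
  | one => exact ⟨0, Nat.zero_le _, Or.inl rfl⟩
  | mul_simple_left w k ih =>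
    obtain ⟨k', hk', h⟩ := ih
    rcases hij k with rfl | rfl
    · exact step _ _ hM k' hk' w h
    · have hM' : M k i ≠ 0 := by rwa [M.symmetric]
      obtain ⟨k'', h1, h2⟩ := step k i hM' k' (by rwa [M.symmetric]) w h.symm
      exact ⟨k'', by rwa [M.symmetric] at h1, h2.symm⟩

/-- Every element is an alternating product with as many factors as its length. -/
theorem al_exists_length (hij : ∀ k, k = i ∨ k = j) (w : W) :
    w = al cs i j (cs.length w) ∨ w = al cs j i (cs.length w) := by
  have key : ∀ (n : ℕ) (w : W), cs.length w = n → w = al cs i j n ∨ w = al cs j i n := by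
    intro n
    induction n with
    | zero =>
      intro w hw
      rw [cs.length_eq_zero_iff] at hw
      exact Or.inl hw
    | succ n ih =>
      intro w hw
      have hne : w ≠ 1 := by
        intro h
        rw [h, cs.length_one] at hw
        omega
      obtain ⟨k, hk⟩ := cs.exists_leftDescent_of_ne_one hne
      rw [cs.isLeftDescent_iff] at hk
      have hw' : w = cs.simple k * (cs.simple k * w) := by
        rw [← mul_assoc, cs.simple_mul_simple_self, one_mul]
      have step : ∀ i j : I, k = i → (cs.simple k * w = al cs i j n ∨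
          cs.simple k * w = al cs j i n) → w = al cs i j (n + 1) := by
        rintro i j rfl (h | h)
        · cases n with
          | zero => rw [hw', h]; rfl
          | succ n =>
            exfalso
            rw [h, simple_al] at hw'
            have := al_length_le cs n j k
            rw [← hw'] at this
            omega
        · rw [hw', h]
          rfl
      have h1 := ih (cs.simple k * w) (by omega)
      rcases hij k with h | h
      · exact Or.inl (step i j h h1)
      · exact Or.inr (step j i h h1.symm)
  exact key _ w rfl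

variable (i j)

/-- The map to the dihedral group. -/
theorem exists_phi (hne : i ≠ j) (hij : ∀ k, k = i ∨ k = j) :
    ∃ φ : W →* DihedralGroup (M i j), φ (cs.simple i) = DihedralGroup.sr 0 ∧
      φ (cs.simple j) = DihedralGroup.sr 1 := by
  classical
  let f : I → DihedralGroup (M i j) := fun k =>
    if k = i then DihedralGroup.sr 0 else DihedralGroup.sr 1
  have hfi : f i = DihedralGroup.sr 0 := if_pos rfl
  have hfj : f j = DihedralGroup.sr 1 := if_neg hne.symm
  have h1 : (f i * f j) ^ M i j = 1 := by
    rw [hfi, hfj, DihedralGroup.sr_mul_sr, sub_zero, DihedralGroup.r_one_pow_n]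
  have h2 : (f j * f i) ^ M i j = 1 := by
    have : f j * f i = (f i * f j)⁻¹ := by
      rw [hfi, hfj, DihedralGroup.sr_mul_sr, DihedralGroup.sr_mul_sr, DihedralGroup.inv_r]
      congr 1
      ring
    rw [this, inv_pow, h1, inv_one]
  have hf : M.IsLiftable f := by
    intro a b
    rcases hij a with ha | ha <;> rcases hij b with hb | hb
    · rw [ha, hb, M.diagonal, pow_one, hfi, DihedralGroup.sr_mul_self]
    · rw [ha, hb]
      exact h1
    · rw [ha, hb]
      have h3 : M j i = M i j := M.symmetric j i
      have h4 : ∀ n : ℕ, n = M i j → (f j * f i) ^ n = 1 := by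
        rintro n rfl
        exact h2
      exact h4 _ h3
    · rw [ha, hb, M.diagonal, pow_one, hfj, DihedralGroup.sr_mul_self]
  exact ⟨cs.lift ⟨f, hf⟩, by rw [cs.lift_apply_simple, hfi], by rw [cs.lift_apply_simple, hfj]⟩

theorem phi_al (φ : W →* DihedralGroup (M i j)) (hi : φ (cs.simple i) = DihedralGroup.sr 0)
    (hj : φ (cs.simple j) = DihedralGroup.sr 1) (l : ℕ) :
    φ (al cs i j (2 * l)) = DihedralGroup.r l ∧
    φ (al cs i j (2 * l + 1)) = DihedralGroup.sr (-(l : ZMod (M i j))) ∧
    φ (al cs j i (2 * l)) = DihedralGroup.r (-(l : ZMod (M i j))) ∧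
    φ (al cs j i (2 * l + 1)) = DihedralGroup.sr (1 + (l : ZMod (M i j))) := by
  have h1 : φ (al cs i j (2 * l)) = DihedralGroup.r l := by
    rw [al_even, map_pow, map_mul, hi, hj, DihedralGroup.sr_mul_sr, sub_zero,
      DihedralGroup.r_one_pow]
  have h2 : φ (al cs j i (2 * l)) = DihedralGroup.r (-(l : ZMod (M i j))) := by
    have : al cs j i (2 * l) = (al cs i j (2 * l))⁻¹ := by
      rw [al_inv, if_pos (even_two_mul l)]
    rw [this, map_inv, h1, DihedralGroup.inv_r]
  refine ⟨h1, ?_, h2, ?_⟩
  · rw [al_succ, map_mul, h2, hi, DihedralGroup.sr_mul_r, zero_add]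
  · rw [al_succ, map_mul, h1, hj, DihedralGroup.sr_mul_r]

theorem cast_ne {m a : ℕ} (h0 : 0 < a) (h1 : a < m) : (a : ZMod m) ≠ 0 := by
  intro h
  rw [ZMod.natCast_eq_zero_iff] at h
  exact absurd (Nat.le_of_dvd h0 h) (not_le.2 h1)

/-- The length of the alternating products. -/
theorem al_length (hne : i ≠ j) (hij : ∀ k, k = i ∨ k = j) (k : ℕ)
    (hk : k ≤ M i j) : cs.length (al cs i j k) = k ∧ cs.length (al cs j i k) = k := by
  obtain ⟨φ, hi, hj⟩ := exists_phi cs i j hne hij
  have hph := phi_al cs i j φ hi hj
  have key : ∀ k' < k, k' % 2 = k % 2 → al cs i j k ≠ al cs i j k' ∧ al cs i j k ≠ al cs j i k' ∧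
      al cs j i k ≠ al cs i j k' ∧ al cs j i k ≠ al cs j i k' := by
    intro k' hk' hmod
    rcases Nat.even_or_odd' k with ⟨l, hl | hl⟩
    · have hl' : k' = 2 * (k' / 2) := by omega
      set l' := k' / 2
      obtain ⟨a1, a2, a3, a4⟩ := hph l
      obtain ⟨b1, b2, b3, b4⟩ := hph l'
      have h1 : ((l - l' : ℕ) : ZMod (M i j)) ≠ 0 := cast_ne (by omega) (by omega)
      have h2 : ((l + l' : ℕ) : ZMod (M i j)) ≠ 0 := cast_ne (by omega) (by omega)
      rw [Nat.cast_sub (by omega)] at h1
      rw [Nat.cast_add] at h2
      rw [hl, hl']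
      refine ⟨fun h => ?_, fun h => ?_, fun h => ?_, fun h => ?_⟩
      · have h3 := congrArg φ h
        rw [a1, b1, DihedralGroup.r.injEq] at h3
        exact h1 (by rw [h3, sub_self])
      · have h3 := congrArg φ h
        rw [a1, b3, DihedralGroup.r.injEq] at h3
        exact h2 (by rw [h3, neg_add_cancel])
      · have h3 := congrArg φ h
        rw [a3, b1, DihedralGroup.r.injEq] at h3
        exact h2 (by rw [← h3, add_neg_cancel])
      · have h3 := congrArg φ h
        rw [a3, b3, DihedralGroup.r.injEq] at h3
        exact h1 (by rw [neg_inj.1 h3, sub_self])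
    · have hl' : k' = 2 * (k' / 2) + 1 := by omega
      set l' := k' / 2
      obtain ⟨a1, a2, a3, a4⟩ := hph l
      obtain ⟨b1, b2, b3, b4⟩ := hph l'
      have h1 : ((l - l' : ℕ) : ZMod (M i j)) ≠ 0 := cast_ne (by omega) (by omega)
      have h2 : ((l + l' + 1 : ℕ) : ZMod (M i j)) ≠ 0 := cast_ne (by omega) (by omega)
      rw [Nat.cast_sub (by omega)] at h1
      rw [Nat.cast_add, Nat.cast_add, Nat.cast_one] at h2
      rw [hl, hl']
      refine ⟨fun h => ?_, fun h => ?_, fun h => ?_, fun h => ?_⟩
      · have h3 := congrArg φ h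
        rw [a2, b2, DihedralGroup.sr.injEq] at h3
        exact h1 (by rw [neg_inj.1 h3, sub_self])
      · have h3 := congrArg φ h
        rw [a2, b4, DihedralGroup.sr.injEq] at h3
        apply h2
        rw [add_assoc, add_comm (l' : ZMod (M i j)) 1, ← h3, add_neg_cancel]
      · have h3 := congrArg φ h
        rw [a4, b2, DihedralGroup.sr.injEq] at h3
        apply h2
        rw [add_right_comm, add_comm (l : ZMod (M i j)) 1, h3, neg_add_cancel]
      · have h3 := congrArg φ h
        rw [a4, b4, DihedralGroup.sr.injEq] at h3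
        exact h1 (by rw [add_left_cancel h3, sub_self])
  constructor
  · by_contra hne
    have h1 := al_length_le cs k i j
    have h2 := al_length_mod cs k i j
    obtain ⟨h3, h4, -, -⟩ := key _ (lt_of_le_of_ne h1 hne) h2
    rcases al_exists_length cs hij (al cs i j k) with h | h
    · exact h3 h
    · exact h4 h
  · by_contra hne
    have h1 := al_length_le cs k j i
    have h2 := al_length_mod cs k j i
    obtain ⟨-, -, h3, h4⟩ := key _ (lt_of_le_of_ne h1 hne) h2
    rcases al_exists_length cs hij (al cs j i k) with h | h
    · exact h3 h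
    · exact h4 h

end

theorem h_rw : R_W := by
  intro I W _ M cs i j hne hij hM
  have hlen := al_length cs i j hne hij
  refine ⟨fun k hk => (hlen k hk).1, al_longest cs i j, al_exists cs hij hM, ?_, ?_, ?_, ?_⟩
  · intro k hk k' hk' h
    have h1 : k = k' := by
      rw [← (hlen k hk).1, h, (hlen k' hk').2]
    subst h1
    refine ⟨rfl, ?_⟩
    by_contra hcon
    push Not at hcon
    obtain ⟨hk0, hkm⟩ := hcon
    obtain ⟨φ, hi, hj⟩ := exists_phi cs i j hne hij
    rcases Nat.even_or_odd' k with ⟨l, hl | hl⟩
    · obtain ⟨a1, a2, a3, a4⟩ := phi_al cs i j φ hi hj l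
      have h3 := congrArg φ h
      rw [hl, a1, a3, DihedralGroup.r.injEq] at h3
      have h1 : ((l + l : ℕ) : ZMod (M i j)) ≠ 0 := cast_ne (by omega) (by omega)
      apply h1
      rw [Nat.cast_add]
      nth_rewrite 1 [h3]
      rw [neg_add_cancel]
    · obtain ⟨a1, a2, a3, a4⟩ := phi_al cs i j φ hi hj l
      have h3 := congrArg φ h
      rw [hl, a2, a4, DihedralGroup.sr.injEq] at h3
      have h1 : ((l + l + 1 : ℕ) : ZMod (M i j)) ≠ 0 := cast_ne (by omega) (by omega)
      apply h1
      rw [Nat.cast_add, Nat.cast_add, Nat.cast_one, add_assoc,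
        add_comm (l : ZMod (M i j)) 1, ← h3, add_neg_cancel]
  · intro k hk
    rw [al_inv, if_pos hk]
  · intro k hk
    rw [al_inv, if_neg (Nat.not_even_iff_odd.2 hk)]
  · intro L hL
    have hL1 : L 1 = 0 := by
      have := hL.add 1 1 (by simp)
      rw [mul_one] at this
      omega
    have hpos : ∀ k, 0 < L (cs.simple k) := by
      intro k
      apply hL.pos
      intro h
      have := cs.length_simple k
      rw [h, cs.length_one] at this
      omega
    have hadd : ∀ k < M i j, L (al cs i j (k + 1)) = L (cs.simple i) + L (al cs j i k) := by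
      intro k hk
      rw [al_succ]
      apply hL.add
      rw [← al_succ, (hlen (k + 1) hk).1, cs.length_simple, (hlen k hk.le).2]
      omega
    have hadd2 : ∀ k < M i j, L (al cs j i (k + 1)) = L (cs.simple j) + L (al cs i j k) := by
      intro k hk
      rw [al_succ]
      apply hL.add
      rw [← al_succ, (hlen (k + 1) hk).2, cs.length_simple, (hlen k hk.le).1]
      omega
    refine ⟨hL1, hadd, fun k hk => ⟨?_, ?_⟩, ?_⟩
    · have h1 : L (al cs i j (k + 1)) = L (al cs i j k) +
          L (cs.simple (if Even k then i else j)) := by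
        rw [al_succ_right]
        apply hL.add
        rw [← al_succ_right, (hlen (k + 1) hk).1, cs.length_simple, (hlen k hk.le).1]
      have h2 := hpos (if Even k then i else j)
      omega
    · rw [hadd k hk]
      have := hpos i
      omega
    · intro hLne
      by_contra hodd
      rw [Nat.not_even_iff_odd] at hodd
      obtain ⟨l, hl⟩ := hodd
      have key : ∀ l', 2 * l' ≤ M i j → L (al cs i j (2 * l')) = l' * (L (cs.simple i) +
          L (cs.simple j)) ∧ L (al cs j i (2 * l')) = l' * (L (cs.simple i) +
          L (cs.simple j)) := by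
        intro l'
        induction l' with
        | zero => intro _; simp [al, hL1]
        | succ l' ih =>
          intro hl'
          obtain ⟨h1, h2⟩ := ih (by omega)
          constructor
          · rw [show 2 * (l' + 1) = 2 * l' + 1 + 1 by ring, hadd _ (by omega),
              hadd2 _ (by omega), h1]
            ring
          · rw [show 2 * (l' + 1) = 2 * l' + 1 + 1 by ring, hadd2 _ (by omega),
              hadd _ (by omega), h2]
            ring
      obtain ⟨h1, h2⟩ := key l (by omega)
      have h3 := hadd (2 * l) (by omega)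
      have h4 := hadd2 (2 * l) (by omega)
      have h5 := al_longest cs i j
      rw [hl] at h5
      rw [h2] at h3
      rw [h1] at h4
      rw [h5, h4] at h3
      exact hLne (by omega)

end Pool.Agent.Helper35.RA
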